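import Mathlib

namespace Pool.Agent.H189Z.QIP

open Finset

/-- the quadratic form of the reduction -/
def Qf (n : ℕ) (a : ℕ → ℤ) (G β : ℤ) (u : ℕ → ℤ) : ℤ :=
  ∑ t ∈ range n, (G * (G ^ n * u (n + t) - 3 * G ^ n * (if t + 1 < n then u (t + 1) else 0) -
      G ^ (n - 1 - t) * u (n + n))) ^ 2 +
    (∑ v ∈ range n, a v * G ^ (v + 1) * u v + β * u (n + n)) ^ 2 +
    ∑ k ∈ range n, 3 * (G * G ^ n) ^ 2 * (u (n + k) ^ 2 - u k ^ 2) - u (n + n) ^ 2

theorem sum_sign (n : ℕ) (a : ℕ → ℤ) (p : ℕ → Prop) [DecidablePred p] :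
    ∑ k ∈ range n, a k * (if p k then 1 else -1) + ∑ k ∈ range n, a k =
      2 * ∑ k ∈ (range n).filter p, a k := by
  rw [sum_filter, mul_sum, ← sum_add_distrib]
  refine sum_congr rfl fun k _ => ?_
  split_ifs <;> ring

theorem Qf_nonneg (n : ℕ) (a : ℕ → ℤ) (B : ℤ) (ha : ∀ k, 0 ≤ a k)
    (hA : 1 ≤ ∑ k ∈ range n, a k) (hno : ∀ S ⊆ range n, ∑ k ∈ S, a k ≠ B) (u : ℕ → ℤ)
    (hu : ∀ k < n, |u k| ≤ u (n + k)) :
    0 ≤ Qf n a (16 * ∑ k ∈ range n, a k) (∑ k ∈ range n, a k - 2 * B) u := by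
  set A := ∑ k ∈ range n, a k with hAdef
  set G := 16 * A with hG
  have hG16 : 16 ≤ G := by omega
  have hG0 : 0 < G := by omega
  set D := G ^ n with hD
  have hD0 : 0 < D := pow_pos hG0 n
  set s := u (n + n) with hs
  set σ := |s| with hσ
  have hσ0 : 0 ≤ σ := abs_nonneg s
  by_contra hneg
  push Not at hneg
  unfold Qf at hneg
  rw [← hD, ← hs] at hneg
  set L := ∑ v ∈ range n, a v * G ^ (v + 1) * u v + (A - 2 * B) * s with hL
  have hgap0 : ∀ k ∈ range n, 0 ≤ 3 * (G * D) ^ 2 * (u (n + k) ^ 2 - u k ^ 2) := fun k hk => by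
    have h1 := hu k (mem_range.mp hk)
    have h2 : u k ^ 2 ≤ u (n + k) ^ 2 := by
      rw [← sq_abs (u k)]; exact pow_le_pow_left₀ (abs_nonneg _) h1 2
    have : 0 ≤ u (n + k) ^ 2 - u k ^ 2 := by linarith
    positivity
  have hS1 := sum_nonneg (s := range n) (fun t _ => sq_nonneg (G * (D * u (n + t) -
    3 * D * (if t + 1 < n then u (t + 1) else 0) - G ^ (n - 1 - t) * s)))
  have hS2 := sum_nonneg hgap0
  have hss : s ^ 2 = σ ^ 2 := (sq_abs s).symm
  have hLlt : |L| < σ := by
    refine abs_lt_of_sq_lt_sq' ?_ hσ0 |> fun h => abs_lt.mpr h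
    nlinarith
  have hkey : ∀ k < n, G * |D * |u k| - G ^ (n - 1 - k) * s -
      3 * D * (if k + 1 < n then u (k + 1) else 0)| ≤ 2 * σ := by
    intro k hk
    have h1 := single_le_sum (s := range n) (fun t _ => sq_nonneg (G * (D * u (n + t) -
      3 * D * (if t + 1 < n then u (t + 1) else 0) - G ^ (n - 1 - t) * s))) (mem_range.mpr hk)
    have h2 := single_le_sum hgap0 (mem_range.mpr hk)
    set w' := (if k + 1 < n then u (k + 1) else 0)
    have h3 : |G * (D * u (n + k) - 3 * D * w' - G ^ (n - 1 - k) * s)| ≤ σ := by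
      refine abs_le_of_sq_le_sq' ?_ hσ0 |> fun h => abs_le.mpr h
      nlinarith [sq_nonneg L]
    have h4 : G * D * (u (n + k) - |u k|) ≤ σ := by
      have h5 := hu k hk
      have h6 : (u (n + k) - |u k|) ^ 2 ≤ u (n + k) ^ 2 - u k ^ 2 := by
        rw [← sq_abs (u k)]; nlinarith [abs_nonneg (u k)]
      have h7 : (G * D * (u (n + k) - |u k|)) ^ 2 ≤ σ ^ 2 := by
        have h8 : (G * D) ^ 2 * (u (n + k) - |u k|) ^ 2 ≤
            (G * D) ^ 2 * (u (n + k) ^ 2 - u k ^ 2) :=
          mul_le_mul_of_nonneg_left h6 (sq_nonneg _)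
        have h9 : 0 ≤ (G * D) ^ 2 * (u (n + k) - |u k|) ^ 2 := by positivity
        nlinarith [sq_nonneg L]
      exact (abs_le_of_sq_le_sq' h7 hσ0).2
    have h5 : 0 ≤ G * D * (u (n + k) - |u k|) := by
      have := hu k hk
      have : 0 ≤ u (n + k) - |u k| := by linarith
      positivity
    have h6 : ∀ z : ℤ, G * |z| = |G * z| := fun z => by rw [abs_mul, abs_of_pos hG0]
    rw [h6, abs_le]
    rw [abs_le] at h3
    constructor <;> nlinarith
  have hg1 : ∀ k, 1 ≤ G ^ (n - 1 - k) := fun k => one_le_pow₀ (by omega)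
  have hind : ∀ m k, k + m + 1 = n →
      G * (D * |if k + 1 < n then u (k + 1) else 0|) ≤ 2 * G ^ (n - 1 - k) * σ := by
    intro m
    induction m with
    | zero =>
      intro k hk
      have : ¬ k + 1 < n := by omega
      simp only [this, if_false, abs_zero, mul_zero]
      have := hg1 k
      positivity
    | succ m ih =>
      intro k hk
      have hk1 : k + 1 < n := by omega
      have h1 := ih (k + 1) (by omega)
      have h2 := hkey (k + 1) hk1
      have h3 : G ^ (n - 1 - k) = G * G ^ (n - 1 - (k + 1)) := by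
        rw [← pow_succ']; congr 1; omega
      simp only [hk1, if_true]
      rw [h3]
      set g := G ^ (n - 1 - (k + 1))
      have hg := hg1 (k + 1)
      set w' := (if k + 1 + 1 < n then u (k + 1 + 1) else 0)
      have h4 : D * |u (k + 1)| ≤ |D * |u (k + 1)| - g * s - 3 * D * w'| + g * σ + 3 * (D * |w'|) := by
        have e1 := le_abs_self (D * |u (k + 1)| - g * s - 3 * D * w')
        have e2 : g * s ≤ g * σ := mul_le_mul_of_nonneg_left (le_abs_self s) (by omega)
        have e3 : D * w' ≤ D * |w'| := mul_le_mul_of_nonneg_left (le_abs_self w') hD0.le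
        linarith
      have h5 := mul_le_mul_of_nonneg_left h4 hG0.le
      have h6 : σ ≤ g * σ := le_mul_of_one_le_left hσ0 hg
      have h7 : 16 * (g * σ) ≤ G * (g * σ) :=
        mul_le_mul_of_nonneg_right hG16 (by positivity)
      nlinarith
  have herr : ∀ k < n, G * |D * u k - (if 0 ≤ u k then 1 else -1) * (G ^ (n - 1 - k) * s)| ≤
      8 * (G ^ (n - 1 - k) * σ) := by
    intro k hk
    have h1 := hind (n - 1 - k) k (by omega)
    have h2 := hkey k hk
    have hg := hg1 k
    set g := G ^ (n - 1 - k)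
    set w' := (if k + 1 < n then u (k + 1) else 0)
    have e : |D * u k - (if 0 ≤ u k then 1 else -1) * (g * s)| = |D * |u k| - g * s| := by
      split_ifs with h
      · rw [abs_of_nonneg h, one_mul]
      · rw [abs_of_neg (not_le.mp h), ← abs_neg]; congr 1; ring
    rw [e]
    have h4 : |D * |u k| - g * s| ≤ |D * |u k| - g * s - 3 * D * w'| + 3 * (D * |w'|) := by
      have := abs_add_le (D * |u k| - g * s - 3 * D * w') (3 * D * w')
      rw [sub_add_cancel, abs_mul, abs_mul, abs_of_pos hD0] at this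
      norm_num at this
      linarith
    have h5 := mul_le_mul_of_nonneg_left h4 hG0.le
    have h6 : σ ≤ g * σ := le_mul_of_one_le_left hσ0 hg
    nlinarith
  set c := ∑ k ∈ (range n).filter (fun k => 0 ≤ u k), a k - B with hc
  have hc0 : c ≠ 0 := sub_ne_zero.mpr (hno _ (filter_subset _ _))
  have hDg : ∀ k < n, G ^ (k + 1) * G ^ (n - 1 - k) = D := fun k hk => by
    rw [← pow_add, hD]; congr 1; omega
  set err := ∑ k ∈ range n, a k * G ^ (k + 1) *
    (D * u k - (if 0 ≤ u k then 1 else -1) * (G ^ (n - 1 - k) * s)) with herrdef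
  have hDL : D * L = err + D * s * (2 * c) := by
    have h1 := sum_sign n a (fun k => 0 ≤ u k)
    have h2 : err = D * ∑ v ∈ range n, a v * G ^ (v + 1) * u v -
        D * s * ∑ k ∈ range n, a k * (if 0 ≤ u k then 1 else -1) := by
      rw [mul_sum, mul_sum, ← sum_sub_distrib]
      refine sum_congr rfl fun k hk => ?_
      rw [← hDg k (mem_range.mp hk)]
      ring
    rw [h2, hL, hc]
    linear_combination (D * s) * h1
  have herr2 : G * |err| ≤ 8 * (A * (D * σ)) := by
    have h1 : |err| ≤ ∑ k ∈ range n, |a k * G ^ (k + 1) *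
        (D * u k - (if 0 ≤ u k then 1 else -1) * (G ^ (n - 1 - k) * s))| := abs_sum_le_sum_abs _ _
    refine (mul_le_mul_of_nonneg_left h1 hG0.le).trans ?_
    rw [hAdef, sum_mul, mul_sum, mul_sum]
    refine sum_le_sum fun k hk => ?_
    have hk' := mem_range.mp hk
    have h2 := herr k hk'
    have h3 : 0 ≤ a k * G ^ (k + 1) := mul_nonneg (ha k) (by positivity)
    have h4 : a k * (D * σ) = a k * G ^ (k + 1) * (G ^ (n - 1 - k) * σ) := by
      rw [← hDg k hk']; ring
    rw [abs_mul, abs_of_nonneg h3, h4]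
    have := mul_le_mul_of_nonneg_left h2 h3
    linarith
  have herr3 : 2 * |err| ≤ D * σ := by
    have : A * (2 * |err|) ≤ A * (D * σ) := by rw [hG] at herr2; nlinarith
    exact le_of_mul_le_mul_left this (by omega)
  have h1 : 2 * (D * σ) ≤ |D * s * (2 * c)| := by
    rw [abs_mul, abs_mul, abs_mul, abs_of_pos hD0, ← hσ]
    have : 1 ≤ |c| := Int.one_le_abs hc0
    have h2 : 0 ≤ D * σ := by positivity
    norm_num
    nlinarith
  have h2 : |D * s * (2 * c)| ≤ D * |L| + |err| := by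
    have : D * s * (2 * c) = D * L - err := by linarith
    rw [this]
    refine (abs_sub _ _).trans ?_
    rw [abs_mul, abs_of_pos hD0]
  have h3 : D * |L| < D * σ := mul_lt_mul_of_pos_left hLlt hD0
  have h4 : 0 ≤ D * σ := by positivity
  linarith

def rr (n : ℕ) (G : ℤ) (S : Finset ℕ) : ℕ → ℤ
  | 0 => 0
  | m + 1 => (if n - 1 - m ∈ S then 1 else -1) * (G ^ m + 3 * rr n G S m)

theorem rr_bound (n : ℕ) (G : ℤ) (hG : 16 ≤ G) (S : Finset ℕ) :
    ∀ m, G * |rr n G S m| ≤ 2 * G ^ m
  | 0 => by simp [rr]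
  | m + 1 => by
    have ih := rr_bound n G hG S m
    have hp : 0 < G ^ m := pow_pos (by omega) m
    have h1 : |rr n G S (m + 1)| ≤ G ^ m + 3 * |rr n G S m| := by
      have e : |(if n - 1 - m ∈ S then 1 else -1 : ℤ)| = 1 := by split_ifs <;> simp
      rw [rr, abs_mul, e, one_mul]
      refine (abs_add_le _ _).trans ?_
      rw [abs_of_pos hp, abs_mul]
      norm_num
    have h2 := mul_le_mul_of_nonneg_left h1 (show 0 ≤ G by omega)
    rw [pow_succ]
    nlinarith

theorem Qf_neg (n : ℕ) (a : ℕ → ℤ) (B : ℤ) (ha : ∀ k, 0 ≤ a k)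
    (hA : 1 ≤ ∑ k ∈ range n, a k) (S : Finset ℕ) (hS : S ⊆ range n) (hB : ∑ k ∈ S, a k = B) :
    ∃ u : ℕ → ℤ, (∀ k < n, |u k| ≤ u (n + k)) ∧
      Qf n a (16 * ∑ k ∈ range n, a k) (∑ k ∈ range n, a k - 2 * B) u < 0 := by
  set A := ∑ k ∈ range n, a k with hAdef
  set G := 16 * A with hG
  have hG16 : 16 ≤ G := by omega
  have hG0 : 0 < G := by omega
  have hD0 : 0 < G ^ n := pow_pos hG0 n
  let u : ℕ → ℤ := fun v => if v < n then rr n G S (n - v) else
    if v < n + n then G ^ (n - 1 - (v - n)) + 3 * rr n G S (n - 1 - (v - n)) else G ^ n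
  have u1 : ∀ k < n, u k = (if k ∈ S then 1 else -1) *
      (G ^ (n - 1 - k) + 3 * rr n G S (n - 1 - k)) := fun k hk => by
    have e1 : n - k = (n - 1 - k) + 1 := by omega
    have e2 : n - 1 - (n - 1 - k) = k := by omega
    simp only [u, hk, if_true]
    rw [e1, rr, e2]
  have u2 : ∀ k < n, u (n + k) = G ^ (n - 1 - k) + 3 * rr n G S (n - 1 - k) := fun k hk => by
    have e1 : ¬ n + k < n := by omega
    simp [u, e1, hk]
  have u3 : u (n + n) = G ^ n := by simp [u]
  have u4 : ∀ k < n, (if k + 1 < n then u (k + 1) else 0) = rr n G S (n - 1 - k) := fun k hk => by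
    split_ifs with h
    · simp only [u, h, if_true]; congr 1; omega
    · have : n - 1 - k = 0 := by omega
      rw [this, rr]
  have hpos : ∀ m, 0 ≤ G ^ m + 3 * rr n G S m := fun m => by
    have h1 := rr_bound n G hG16 S m
    have hp : 0 < G ^ m := pow_pos hG0 m
    have h2 := neg_abs_le (rr n G S m)
    have : 0 ≤ G * (G ^ m + 3 * rr n G S m) := by nlinarith
    exact nonneg_of_mul_nonneg_right this hG0 |> fun h => by
      by_contra hn
      push Not at hn
      have := mul_neg_of_pos_of_neg hG0 hn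
      linarith
  have habs : ∀ k < n, |u k| = u (n + k) := fun k hk => by
    have e : |(if k ∈ S then 1 else -1 : ℤ)| = 1 := by split_ifs <;> simp
    rw [u1 k hk, u2 k hk, abs_mul, e, one_mul, abs_of_nonneg (hpos _)]
  refine ⟨u, fun k hk => (habs k hk).le, ?_⟩
  have hDg : ∀ k < n, G ^ (k + 1) * G ^ (n - 1 - k) = G ^ n := fun k hk => by
    rw [← pow_add]; congr 1; omega
  have s1 : ∑ t ∈ range n, (G * (G ^ n * u (n + t) - 3 * G ^ n *
      (if t + 1 < n then u (t + 1) else 0) - G ^ (n - 1 - t) * u (n + n))) ^ 2 = 0 := by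
    refine sum_eq_zero fun k hk => ?_
    have hk' := mem_range.mp hk
    rw [u2 k hk', u3, u4 k hk']
    ring
  have s2 : ∑ k ∈ range n, 3 * (G * G ^ n) ^ 2 * (u (n + k) ^ 2 - u k ^ 2) = 0 := by
    refine sum_eq_zero fun k hk => ?_
    rw [← habs k (mem_range.mp hk), sq_abs]
    ring
  set err := ∑ k ∈ range n, a k * G ^ (k + 1) *
    ((if k ∈ S then 1 else -1) * (3 * rr n G S (n - 1 - k))) with herr
  have s3 : ∑ v ∈ range n, a v * G ^ (v + 1) * u v + (A - 2 * B) * u (n + n) = err := by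
    have h1 := sum_sign n a (fun k => k ∈ S)
    have h0 : (range n).filter (fun k => k ∈ S) = S := by
      ext k; simp only [mem_filter]; exact ⟨fun h => h.2, fun h => ⟨hS h, h⟩⟩
    rw [h0, hB] at h1
    have h2 : ∑ v ∈ range n, a v * G ^ (v + 1) * u v =
        err + G ^ n * ∑ k ∈ range n, a k * (if k ∈ S then 1 else -1) := by
      rw [mul_sum, ← sum_add_distrib]
      refine sum_congr rfl fun k hk => ?_
      rw [u1 k (mem_range.mp hk), ← hDg k (mem_range.mp hk)]
      ring
    rw [h2, u3]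
    linear_combination (G ^ n) * h1
  have herr2 : G * |err| ≤ 6 * (A * G ^ n) := by
    refine (mul_le_mul_of_nonneg_left (abs_sum_le_sum_abs _ _) hG0.le).trans ?_
    rw [hAdef, sum_mul, mul_sum, mul_sum]
    refine sum_le_sum fun k hk => ?_
    have hk' := mem_range.mp hk
    have h2 := rr_bound n G hG16 S (n - 1 - k)
    have h3 : 0 ≤ a k * G ^ (k + 1) := mul_nonneg (ha k) (by positivity)
    have e : |(if k ∈ S then 1 else -1 : ℤ)| = 1 := by split_ifs <;> simp
    rw [abs_mul, abs_of_nonneg h3, abs_mul, e, one_mul, abs_mul, ← hDg k hk']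
    have := mul_le_mul_of_nonneg_left h2 h3
    norm_num
    nlinarith
  have herr3 : 8 * |err| ≤ 3 * G ^ n := by
    have : A * (8 * |err|) ≤ A * (3 * G ^ n) := by
      have e : G * |err| = 16 * (A * |err|) := by rw [hG]; ring
      nlinarith
    exact le_of_mul_le_mul_left this (by omega)
  unfold Qf
  rw [s1, s2, s3, u3, ← sq_abs err]
  nlinarith [abs_nonneg err]

theorem Qf_smul (n : ℕ) (a : ℕ → ℤ) (G β m : ℤ) (u : ℕ → ℤ) :
    Qf n a G β (fun v => m * u v) = m ^ 2 * Qf n a G β u := by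
  unfold Qf
  have e1 : ∑ v ∈ range n, a v * G ^ (v + 1) * (m * u v) =
      m * ∑ v ∈ range n, a v * G ^ (v + 1) * u v := by
    rw [mul_sum]; exact sum_congr rfl fun _ _ => by ring
  rw [e1, mul_sub, mul_add, mul_add, mul_sum (range n) _ (m ^ 2), mul_sum (range n) _ (m ^ 2)]
  congr 2
  · congr 1
    · exact sum_congr rfl fun _ _ => by split_ifs <;> ring
    · ring
  · exact sum_congr rfl fun _ _ => by ring
  · ring

end Pool.Agent.H189Z.QIP
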