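import Pool.Agent.NPC.Classes

/-!
Separable quadratic integer programs with totally unimodular constraints.
-/

namespace Pool.Agent.H189Z.QIP

open Pool.Agent.NPC

/-- An instance `(W, w, h, c)`: the rows of `W`, the right-hand side `w`, the linear part `h`
and the signed diagonal `c` of the objective: `i ∈ C` with `q_i = c_i` if `c_i > 0`, `i ∈ V` with
`q_i = -c_i` if `c_i < 0`, and `i ∉ C ∪ V` if `c_i = 0`. -/
abbrev Inst : Type := List (List ℤ) × List ℤ × List ℤ × List ℤ

/-- The number `n` of variables. -/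
def nv (I : Inst) : ℕ := I.2.2.2.length

/-- The number `m` of constraints. -/
def nc (I : Inst) : ℕ := I.1.length

/-- The entry `W i j`. -/
def ent (I : Inst) (i j : ℕ) : ℤ := (I.1.getD i []).getD j 0

/-- Well-formed instances with `W` totally unimodular and at most `p` concave variables. -/
def Valid (p : ℕ) (I : Inst) : Prop :=
  1 ≤ nv I ∧ 1 ≤ nc I ∧ (∀ r ∈ I.1, r.length = nv I) ∧ I.2.1.length = nc I ∧
    I.2.2.1.length = nv I ∧
    (Matrix.of fun (i : Fin (nc I)) (j : Fin (nv I)) => ent I i j).IsTotallyUnimodular ∧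
    I.2.2.2.countP (fun c => decide (c < 0)) ≤ p

/-- `x ∈ ℤ^n` satisfies `W x ≤ w`. -/
def Feas (I : Inst) (x : List ℤ) : Prop :=
  x.length = nv I ∧
    ∀ i < nc I, ∑ j ∈ Finset.range (nv I), ent I i j * x.getD j 0 ≤ I.2.1.getD i 0

/-- The objective `f(x) = ∑ c_j x_j^2 + h^T x`. -/
def obj (I : Inst) (x : List ℤ) : ℤ :=
  ∑ j ∈ Finset.range (nv I),
    (I.2.2.2.getD j 0 * x.getD j 0 ^ 2 + I.2.2.1.getD j 0 * x.getD j 0)

/-- `f` is unbounded below on the feasible set. -/
def Unbounded (I : Inst) : Prop := ∀ b : ℤ, ∃ x, Feas I x ∧ obj I x < b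

/-- `x` is an optimal solution. -/
def Optimal (I : Inst) (x : List ℤ) : Prop := Feas I x ∧ ∀ y, Feas I y → obj I x ≤ obj I y

/-- `x` is an `ε`-approximate solution with respect to the optimal solution `xs`: it is feasible
and, if the supremum `F` of `f` on the feasible set is finite,
`f(x) - f(xs) ≤ ε (F - f(xs))`. -/
def Approx (ε : ℝ) (I : Inst) (xs x : List ℤ) : Prop :=
  Feas I x ∧ ∀ F : ℝ, IsLUB {v : ℝ | ∃ y, Feas I y ∧ v = obj I y} F →
    (obj I x : ℝ) - obj I xs ≤ ε * (F - obj I xs)

/-- Answers: `inl x` returns the point `x`, `inr false` reports infeasibility and `inr true`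
reports unboundedness. -/
abbrev Answer : Type := List ℤ ⊕ Bool

/-- The answer is correct. -/
def Correct (ε : ℝ) (I : Inst) (a : Answer) : Prop :=
  ((¬ ∃ x, Feas I x) → a = Sum.inr false) ∧ (Unbounded I → a = Sum.inr true) ∧
    ∀ xs, Optimal I xs → ∃ x, a = Sum.inl x ∧ Approx ε I xs x

/-- The function `A` on bit strings answers correctly on all valid instances with at most `p`
concave variables. -/
def Solves (p : ℕ) (ε : ℝ) (A : List Bool → List Bool) : Prop :=
  ∀ I : Inst, Valid p I → ∃ a : Answer, A (bits I) = bits a ∧ Correct ε I a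

end Pool.Agent.H189Z.QIP
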