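import Pool.Agent.H189Z.QIP.Net

namespace Pool.Agent.H189Z.QIP

open Finset

def om (α : ℕ → ℕ → ℤ) (t i j : ℕ) : ℤ := if i = j then 0 else ((α t i * α t j).natAbs : ℤ)

def pairEdges (N T : ℕ) (α : ℕ → ℕ → ℤ) : List (ℕ × ℕ × ℤ) :=
  (List.range T).flatMap fun t => (List.range N).flatMap fun i => (List.range N).flatMap fun j =>
    [(i, if 0 < α t i * α t j then N + j else j, om α t i j),
      (N + i, if 0 < α t i * α t j then j else N + j, om α t i j)]

def rho (N T : ℕ) (α : ℕ → ℕ → ℤ) (d : ℕ → ℤ) (v : ℕ) : ℤ :=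
  d v + ((List.range T).map fun t => 2 * (α t v * α t v) -
    ((α t v).natAbs : ℤ) * ((List.range N).map fun j => ((α t j).natAbs : ℤ)).sum).sum

theorem sum_map_range (N : ℕ) (f : ℕ → ℤ) : ((List.range N).map f).sum = ∑ i ∈ range N, f i := by
  induction N with
  | zero => simp
  | succ N ih => simp [List.range_succ, sum_range_succ, ih]

theorem energy_append (E E' : List (ℕ × ℕ × ℤ)) (π : ℕ → ℤ) :
    energy (E ++ E') π = energy E π + energy E' π := by simp [energy]

theorem energy_flatMap (N : ℕ) (F : ℕ → List (ℕ × ℕ × ℤ)) (π : ℕ → ℤ) :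
    energy ((List.range N).flatMap F) π = ∑ i ∈ range N, energy (F i) π := by
  induction N with
  | zero => simp [energy]
  | succ N ih => simp [List.range_succ, List.flatMap_append, energy_append, sum_range_succ, ih]

theorem om_nonneg (α : ℕ → ℕ → ℤ) (t i j : ℕ) : 0 ≤ om α t i j := by
  unfold om; split_ifs <;> positivity

theorem rho_eq (N T : ℕ) (α : ℕ → ℕ → ℤ) (d : ℕ → ℤ) (v : ℕ) : rho N T α d v =
    d v + ∑ t ∈ range T, (2 * α t v ^ 2 - |α t v| * ∑ j ∈ range N, |α t j|) := by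
  simp only [rho, sum_map_range, Int.natCast_natAbs, pow_two]

theorem pair_pt (α : ℕ → ℕ → ℤ) (N t i j : ℕ) (π : ℕ → ℤ) :
    2 * energy [(i, if 0 < α t i * α t j then N + j else j, om α t i j),
      (N + i, if 0 < α t i * α t j then j else N + j, om α t i j)] π =
    (|α t i| * |α t j| * (π i - π (N + i)) ^ 2 + |α t i| * |α t j| * (π j - π (N + j)) ^ 2) +
      2 * ((α t i * (π i - π (N + i))) * (α t j * (π j - π (N + j)))) -
      (if i = j then 4 * (α t i ^ 2 * (π i - π (N + i)) ^ 2) else 0) +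
      om α t i j * ((π i + π (N + i)) - (π j + π (N + j))) ^ 2 := by
  simp only [energy, List.map_cons, List.map_nil, List.sum_cons, List.sum_nil, om,
    Int.natCast_natAbs, ← abs_mul]
  by_cases hij : i = j
  · subst hij
    simp only [if_true, abs_mul_self]
    ring
  · simp only [hij, if_false]
    by_cases h : 0 < α t i * α t j
    · simp only [h, if_true, abs_of_pos h]; ring
    · simp only [h, if_false, abs_of_nonpos (not_lt.mp h)]; ring

theorem pair_energy (N T : ℕ) (α : ℕ → ℕ → ℤ) (d : ℕ → ℤ) (π : ℕ → ℤ) :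
    2 * (energy (pairEdges N T α) π + ∑ v ∈ range N, rho N T α d v * (π v - π (N + v)) ^ 2) =
    2 * (∑ t ∈ range T, (∑ i ∈ range N, α t i * (π i - π (N + i))) ^ 2 +
      ∑ v ∈ range N, d v * (π v - π (N + v)) ^ 2) +
      ∑ t ∈ range T, ∑ i ∈ range N, ∑ j ∈ range N,
        om α t i j * ((π i + π (N + i)) - (π j + π (N + j))) ^ 2 := by
  have h1 : ∑ v ∈ range N, rho N T α d v * (π v - π (N + v)) ^ 2 =
      ∑ v ∈ range N, d v * (π v - π (N + v)) ^ 2 + ∑ t ∈ range T, ∑ v ∈ range N,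
        (2 * α t v ^ 2 - |α t v| * ∑ j ∈ range N, |α t j|) * (π v - π (N + v)) ^ 2 := by
    rw [sum_comm, ← sum_add_distrib]
    refine sum_congr rfl fun v _ => ?_
    rw [rho_eq, add_mul, sum_mul]
  have h2 : ∀ t, 2 * (∑ i ∈ range N, ∑ j ∈ range N,
      energy [(i, if 0 < α t i * α t j then N + j else j, om α t i j),
        (N + i, if 0 < α t i * α t j then j else N + j, om α t i j)] π) +
      2 * ∑ v ∈ range N,
        (2 * α t v ^ 2 - |α t v| * ∑ j ∈ range N, |α t j|) * (π v - π (N + v)) ^ 2 =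
      2 * (∑ i ∈ range N, α t i * (π i - π (N + i))) ^ 2 + ∑ i ∈ range N, ∑ j ∈ range N,
        om α t i j * ((π i + π (N + i)) - (π j + π (N + j))) ^ 2 := by
    intro t
    simp only [mul_sum, pair_pt, sum_add_distrib, sum_sub_distrib]
    have e1 : ∑ i ∈ range N, ∑ j ∈ range N, |α t i| * |α t j| * (π j - π (N + j)) ^ 2 =
        ∑ i ∈ range N, ∑ j ∈ range N, |α t i| * |α t j| * (π i - π (N + i)) ^ 2 := by
      rw [sum_comm]
      exact sum_congr rfl fun i _ => sum_congr rfl fun j _ => by ring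
    have e2 : ∑ i ∈ range N, ∑ j ∈ range N,
        (if i = j then 4 * (α t i ^ 2 * (π i - π (N + i)) ^ 2) else 0) =
        ∑ i ∈ range N, 4 * (α t i ^ 2 * (π i - π (N + i)) ^ 2) :=
      sum_congr rfl fun i hi => by simp [hi]
    have e3 : ∑ i ∈ range N, ∑ j ∈ range N,
        2 * ((α t i * (π i - π (N + i))) * (α t j * (π j - π (N + j)))) =
        2 * (∑ i ∈ range N, α t i * (π i - π (N + i))) ^ 2 := by
      rw [pow_two, sum_mul_sum, mul_sum]
      exact sum_congr rfl fun i _ => by rw [mul_sum]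
    have e4 : ∑ v ∈ range N, 2 * ((2 * α t v ^ 2 - ∑ j ∈ range N, |α t v| * |α t j|) *
        (π v - π (N + v)) ^ 2) = ∑ i ∈ range N, 4 * (α t i ^ 2 * (π i - π (N + i)) ^ 2) -
        2 * ∑ i ∈ range N, ∑ j ∈ range N, |α t i| * |α t j| * (π i - π (N + i)) ^ 2 := by
      rw [mul_sum, ← sum_sub_distrib]
      refine sum_congr rfl fun i _ => ?_
      rw [← sum_mul]
      ring
    rw [e1, e2, e3, e4]
    ring
  have h3 := sum_congr (rfl : range T = range T) fun t _ => h2 t
  simp only [sum_add_distrib, ← mul_sum] at h3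
  simp only [pairEdges, energy_flatMap]
  rw [h1]
  linear_combination h3

theorem mem_pairEdges {N T : ℕ} {α : ℕ → ℕ → ℤ} {e : ℕ × ℕ × ℤ} (he : e ∈ pairEdges N T α) :
    e.1 < N + N ∧ e.2.1 < N + N ∧ 0 ≤ e.2.2 := by
  simp only [pairEdges, List.mem_flatMap, List.mem_range, List.mem_cons, List.not_mem_nil,
    or_false] at he
  obtain ⟨t, _, i, hi, j, hj, rfl | rfl⟩ := he
  · refine ⟨by simp only; omega, by simp only; split_ifs <;> omega, om_nonneg _ _ _ _⟩
  · refine ⟨by simp only; omega, by simp only; split_ifs <;> omega, om_nonneg _ _ _ _⟩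

end Pool.Agent.H189Z.QIP
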