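import Pool.Agent.H189Z.QIP.Red
import Pool.Agent.H687R2.IntPoly
import Pool.Agent.H671R2.Search

namespace Pool.Agent.H189Z.QIP

open Pool.Agent.NPC Pool.Agent.NPC.R671.SS

attribute [local fun_prop] Poly.iadd Poly.isub Poly.imul Poly.ineg Poly.natAbs Poly.ilt
  Poly.isum

variable {α : Type} [TEnc α]

theorem poly_net {V : α → ℕ} {E : α → List (ℕ × ℕ × ℤ)} {C : α → List (ℕ × ℕ)} (hV : UPoly V)
    (hE : Poly E) (hC : Poly C) : Poly (fun a => net (V a) (E a) (C a)) := by
  have hV' := hV.toPoly
  have hr : Poly (fun a => rows (E a) (C a)) := by unfold rows; fun_prop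
  have hR : Poly (fun a => List.range (V a + (E a).length)) := (hV.add (UPoly.length hE)).range
  have hR' : Poly (fun a => List.range (V a)) := hV.range
  have hent : Poly (fun p : (α × (ℤ × ℕ × ℕ × ℕ)) × ℕ => rent (V p.1.1) p.1.2 p.2) := by
    unfold rent; fun_prop
  unfold net
  refine Poly.pair ?_ (by fun_prop)
  refine NPC.Poly.map (F := fun a r => (List.range (V a + (E a).length)).map (fun j => rent (V a) r j))
    hr ?_
  exact NPC.Poly.map (F := fun (p : α × (ℤ × ℕ × ℕ × ℕ)) j => rent (V p.1) p.2 j)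
    (hR.comp (Poly.fst Poly.id)) hent

theorem poly_gg {x : α → SI} (hx : Poly x) : Poly (fun a => gg (x a)) := by
  unfold gg; fun_prop

theorem upoly_len {x : α → SI} (hx : Poly x) : UPoly (fun a => (x a).1.length) :=
  UPoly.length (Poly.fst hx)

theorem upoly_NN {x : α → SI} (hx : Poly x) : UPoly (fun a => NN (x a)) :=
  ((upoly_len hx).add (upoly_len hx)).add (UPoly.const 1)

theorem poly_al {x : α → SI} {t v : α → ℕ} (hx : Poly x) (ht : Poly t) (hv : Poly v) :
    Poly (fun a => al (x a) (t a) (v a)) := by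
  have hg := poly_gg hx
  have h1 : Poly (fun a => gg (x a) ^ (x a).1.length) := Poly.ipow hg (upoly_len hx)
  have h2 : Poly (fun a => gg (x a) ^ ((x a).1.length - 1 - t a)) :=
    Poly.ipow hg (UPoly.of_le (by fun_prop) (upoly_len hx) (fun a => by omega))
  have h3 : Poly (fun a => gg (x a) ^ (min (v a + 1) (x a).1.length)) :=
    Poly.ipow hg (UPoly.of_le (by fun_prop) (upoly_len hx) (fun a => min_le_right _ _))
  have h4 : Poly (fun a => aa (x a) (v a)) := by unfold aa; fun_prop
  unfold al
  refine Poly.ite (by fun_prop) (Poly.imul hg (Poly.isub (Poly.isub ?_ ?_) ?_)) ?_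
  · exact Poly.ite (by fun_prop) h1 (NPC.Poly.const _)
  · exact Poly.ite (by fun_prop) (Poly.imul (NPC.Poly.const _) h1) (NPC.Poly.const _)
  · exact Poly.ite (by fun_prop) h2 (NPC.Poly.const _)
  · exact Poly.ite (by fun_prop) (Poly.imul h4 h3) (Poly.ite (by fun_prop) (by fun_prop)
      (NPC.Poly.const _))

theorem poly_dd {x : α → SI} {v : α → ℕ} (hx : Poly x) (hv : Poly v) :
    Poly (fun a => dd (x a) (v a)) := by
  have hg := poly_gg hx
  have h1 : Poly (fun a => gg (x a) ^ (x a).1.length) := Poly.ipow hg (upoly_len hx)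
  have h2 : Poly (fun a => 3 * (gg (x a) * gg (x a) ^ (x a).1.length) ^ 2) :=
    Poly.imul (NPC.Poly.const _) (Poly.ipow (Poly.imul hg h1) (UPoly.const 2))
  unfold dd
  exact Poly.ite (by fun_prop) (Poly.ineg h2) (Poly.ite (by fun_prop) h2 (NPC.Poly.const _))

attribute [local fun_prop] poly_al poly_dd

theorem poly_rN {x : α → SI} (hx : Poly x) : Poly (fun a => List.range (NN (x a))) :=
  (upoly_NN hx).range

theorem poly_rT {x : α → SI} (hx : Poly x) : Poly (fun a => List.range ((x a).1.length + 1)) :=
  ((upoly_len hx).add (UPoly.const 1)).range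

theorem poly_NN {x : α → SI} (hx : Poly x) : Poly (fun a => NN (x a)) := (upoly_NN hx).toPoly

attribute [local fun_prop] poly_rN poly_rT poly_NN

attribute [local irreducible] al dd NN

theorem poly_rh {x : α → SI} {v : α → ℕ} (hx : Poly x) (hv : Poly v) :
    Poly (fun a => rh (x a) (v a)) := by
  unfold rh rho
  fun_prop

theorem poly_om {x : α → SI} {t i j : α → ℕ} (hx : Poly x) (ht : Poly t) (hi : Poly i)
    (hj : Poly j) : Poly (fun a => om (al (x a)) (t a) (i a) (j a)) := by
  unfold om
  fun_prop

attribute [local fun_prop] poly_rh poly_om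

attribute [local irreducible] rh om

theorem poly_edges : Poly edges := by
  have h1 : Poly (fun x : SI => List.range (x.1.length + x.1.length - 1)) :=
    (UPoly.of_le (by fun_prop) ((upoly_len Poly.id).add (upoly_len Poly.id))
      (fun a => by omega)).range
  have h2 : Poly (fun x : SI => pairEdges (NN x) (x.1.length + 1) (al x)) := by
    unfold pairEdges
    fun_prop
  unfold edges
  refine Poly.append (by fun_prop) (Poly.append ?_ h2)
  exact NPC.Poly.map (F := fun x v => (v + 1, NN x + (v + 1), rh x (v + 1))) h1 (by fun_prop)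

theorem poly_cons : Poly cons := by
  unfold cons
  exact Poly.flatMap (F := fun (x : SI) k =>
    [(k, x.1.length + k), (NN x + k, x.1.length + k), (NN x + (x.1.length + k), k),
      (NN x + (x.1.length + k), NN x + k)]) (upoly_len Poly.id).range (by fun_prop)

theorem poly_red : Poly red :=
  poly_net ((upoly_NN Poly.id).add (upoly_NN Poly.id)) poly_edges poly_cons

theorem main {p : ℕ} (hp : 2 ≤ p) (ε : ℝ) (A : List Bool → List Bool) (hA : PolyTime A)
    (hS : Solves p ε A) : ∀ L, InNP L → InP L := by
  have hA' : Poly A := H622R2.poly_of_polyTime hA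
  have hd : Poly (fun x : SI => decide (A (bits (red x)) = bits (Sum.inr true : Answer))) :=
    Poly.dec_eq (hA'.comp (R671.poly_bits.comp poly_red)) (NPC.Poly.const _)
  refine hardPr_SubsetSum.collapse hd fun x hx => ?_
  obtain ⟨a, ha, _, h2, h3⟩ := hS (red x) (valid_red x hx hp)
  rw [ha, decide_eq_true_iff, bits_injective.eq_iff]
  constructor
  · exact fun h => h2 (red_yes x hx h)
  · intro h
    by_contra hn
    obtain ⟨y, hy⟩ := red_no x hx hn
    obtain ⟨z, hz, _⟩ := h3 y hy
    rw [hz] at h
    cases h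

end Pool.Agent.H189Z.QIP
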