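import Mathlib

namespace Pool.Agent.H189Z.QIP

open Matrix

theorem det_inc : ∀ (k : ℕ) (α β g : Fin k → ℕ), Function.Injective g →
    (Matrix.of fun i j => ((if g j = β i then 1 else 0) - (if g j = α i then 1 else 0) : ℤ)).det ∈
      Set.range (SignType.cast : SignType → ℤ)
  | 0, _, _, _, _ => ⟨1, by simp⟩
  | k + 1, α, β, g, hg => by
    set M : Matrix (Fin (k + 1)) (Fin (k + 1)) ℤ :=
      Matrix.of fun i j => ((if g j = β i then 1 else 0) - (if g j = α i then 1 else 0) : ℤ)
      with hM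
    by_cases h : ∀ i, (∃ j, g j = β i) ∧ ∃ j, g j = α i
    · refine ⟨0, ?_⟩
      have hz : M *ᵥ (fun _ => (1 : ℤ)) = 0 := by
        ext i
        obtain ⟨⟨j1, h1⟩, ⟨j2, h2⟩⟩ := h i
        simp only [hM, mulVec, dotProduct, of_apply, mul_one, Finset.sum_sub_distrib, Pi.zero_apply]
        rw [← h1, ← h2]
        simp [hg.eq_iff]
      have : M.det = 0 := by
        rw [← Matrix.exists_mulVec_eq_zero_iff]
        exact ⟨fun _ => 1, fun h0 => by simpa using congrFun h0 0, hz⟩
      simp [this]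
    · push Not at h
      obtain ⟨i, hi⟩ := h
      have hrow : ∃ (j0 : Fin (k + 1)) (e : SignType), ∀ j, M i j = if j = j0 then (e : ℤ) else 0 := by
        by_cases hb : ∃ j, g j = β i
        · obtain ⟨j0, hj0⟩ := hb
          have ha := hi ⟨j0, hj0⟩
          refine ⟨j0, 1, fun j => ?_⟩
          simp only [hM, of_apply, ha j, if_false, ← hj0, hg.eq_iff]
          simp
        · push Not at hb
          by_cases ha : ∃ j, g j = α i
          · obtain ⟨j0, hj0⟩ := ha
            refine ⟨j0, -1, fun j => ?_⟩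
            simp only [hM, of_apply, hb j, if_false, ← hj0, hg.eq_iff]
            split_ifs <;> simp
          · push Not at ha
            exact ⟨0, 0, fun j => by simp [hM, ha j, hb j]⟩
      obtain ⟨j0, e, he⟩ := hrow
      obtain ⟨s, hs⟩ := det_inc k (α ∘ i.succAbove) (β ∘ i.succAbove) (g ∘ j0.succAbove)
        (hg.comp j0.succAbove_right_injective)
      rw [det_succ_row M i, Finset.sum_eq_single j0 (fun j _ hj => by simp [he j, hj])
        (by simp)]
      have hsub : M.submatrix i.succAbove j0.succAbove = Matrix.of fun i' j' =>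
          ((if (g ∘ j0.succAbove) j' = (β ∘ i.succAbove) i' then 1 else 0) -
            (if (g ∘ j0.succAbove) j' = (α ∘ i.succAbove) i' then 1 else 0) : ℤ) := by
        ext i' j'; rfl
      rw [hsub, ← hs, he j0, if_pos rfl]
      exact ⟨(-1) ^ ((i : ℕ) + (j0 : ℕ)) * e * s, by simp⟩

theorem tu_inc {ρ : Type} (α β : ρ → ℕ) :
    (Matrix.of fun (r : ρ) (j : ℕ) =>
      ((if j = β r then 1 else 0) - (if j = α r then 1 else 0) : ℤ)).IsTotallyUnimodular := by
  intro k f g _ hg
  exact det_inc k (α ∘ f) (β ∘ f) g hg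

theorem tu_sign {m n : Type} {A : Matrix m n ℤ} (hA : A.IsTotallyUnimodular) (σ : m → ℤ)
    (hσ : ∀ i, σ i = 1 ∨ σ i = -1) :
    (Matrix.of fun i j => σ i * A i j).IsTotallyUnimodular := by
  intro k f g hf hg
  obtain ⟨s, hs⟩ := hA k f g hf hg
  have h1 : (Matrix.of fun i j => σ i * A i j).submatrix f g =
      Matrix.of fun i j => (σ ∘ f) i * (A.submatrix f g) i j := by
    ext i j; rfl
  rw [h1, det_mul_column, ← hs]
  have h2 : ∃ t : SignType, (t : ℤ) = ∏ i, (σ ∘ f) i := by
    refine Finset.prod_induction _ (fun z : ℤ => ∃ t : SignType, (t : ℤ) = z) ?_ ⟨1, by simp⟩ ?_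
    · rintro a b ⟨t, rfl⟩ ⟨u, rfl⟩
      exact ⟨t * u, by simp⟩
    · intro i _
      rcases hσ (f i) with h | h
      · exact ⟨1, by simp [h]⟩
      · exact ⟨-1, by simp [h]⟩
  obtain ⟨t, ht⟩ := h2
  exact ⟨t * s, by simp [ht]⟩

end Pool.Agent.H189Z.QIP
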