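import Pool.Agent.H189Z.QIP.Defs
import Pool.Agent.H189Z.QIP.TU

namespace Pool.Agent.H189Z.QIP

open Finset

/-- row data `(σ, a, b, t)` -/
def rows (E : List (ℕ × ℕ × ℤ)) (C : List (ℕ × ℕ)) : List (ℤ × ℕ × ℕ × ℕ) :=
  E.zipIdx.flatMap (fun e => [(1, e.1.1, e.1.2.1, e.2), (-1, e.1.1, e.1.2.1, e.2)]) ++
    C.map (fun c => (-1, c.1, c.2, E.length))

def rent (V : ℕ) (r : ℤ × ℕ × ℕ × ℕ) (j : ℕ) : ℤ :=
  r.1 * ((if j = V + r.2.2.2 then 1 else 0) +
    ((if j = r.2.2.1 then 1 else 0) - (if j = r.2.1 then 1 else 0)))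

def net (V : ℕ) (E : List (ℕ × ℕ × ℤ)) (C : List (ℕ × ℕ)) : Inst :=
  ((rows E C).map (fun r => (List.range (V + E.length)).map (fun j => rent V r j)),
    (rows E C).map (fun _ => 0), (List.range (V + E.length)).map (fun _ => 0),
    (List.range V).map (fun _ => 0) ++ E.map (fun e => e.2.2))

variable {V : ℕ} {E : List (ℕ × ℕ × ℤ)} {C : List (ℕ × ℕ)}

theorem nv_net : nv (net V E C) = V + E.length := by simp [nv, net]

theorem nc_net : nc (net V E C) = (rows E C).length := by simp [nc, net]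

theorem ent_net {i j : ℕ} (hi : i < (rows E C).length) (hj : j < V + E.length) :
    ent (net V E C) i j = rent V ((rows E C)[i]) j := by
  simp [ent, net, List.getD_eq_getElem?_getD, hi, hj]

theorem mem_rows {r : ℤ × ℕ × ℕ × ℕ} : r ∈ rows E C ↔
    (∃ t, ∃ h : t < E.length, r = (1, E[t].1, E[t].2.1, t) ∨ r = (-1, E[t].1, E[t].2.1, t)) ∨
      ∃ c ∈ C, r = (-1, c.1, c.2, E.length) := by
  simp only [rows, List.mem_append, List.mem_flatMap, List.mem_map, List.mem_cons,
    List.not_mem_nil, or_false]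
  refine or_congr ?_ ?_
  · constructor
    · rintro ⟨⟨e, t⟩, he, h⟩
      rw [List.mem_zipIdx_iff_getElem?] at he
      simp only at he h
      obtain ⟨ht, rfl⟩ := List.getElem?_eq_some_iff.mp he
      exact ⟨t, ht, h⟩
    · rintro ⟨t, ht, h⟩
      exact ⟨(E[t], t), by rw [List.mem_zipIdx_iff_getElem?]; simp [ht], h⟩
  · constructor
    · rintro ⟨c, hc, rfl⟩; exact ⟨c, hc, rfl⟩
    · rintro ⟨c, hc, rfl⟩; exact ⟨c, hc, rfl⟩

theorem sum_rent (r : ℤ × ℕ × ℕ × ℕ) (N : ℕ) (x : ℕ → ℤ) (ha : r.2.1 < N) (hb : r.2.2.1 < N) :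
    ∑ j ∈ range N, rent V r j * x j =
      r.1 * ((if V + r.2.2.2 < N then x (V + r.2.2.2) else 0) + (x r.2.2.1 - x r.2.1)) := by
  simp only [rent, mul_assoc, ← mul_sum, add_mul, sub_mul, ite_mul, one_mul, zero_mul,
    sum_add_distrib, sum_sub_distrib, sum_ite_eq', mem_range, ha, hb, if_true]

def Ok (V : ℕ) (E : List (ℕ × ℕ × ℤ)) (C : List (ℕ × ℕ)) : Prop :=
  (∀ e ∈ E, e.1 < V ∧ e.2.1 < V) ∧ ∀ c ∈ C, c.1 < V ∧ c.2 < V

theorem feas_iff (h : Ok V E C) (x : List ℤ) : Feas (net V E C) x ↔ x.length = V + E.length ∧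
    (∀ t, ∀ ht : t < E.length, x.getD (V + t) 0 = x.getD E[t].1 0 - x.getD E[t].2.1 0) ∧
    ∀ c ∈ C, x.getD c.1 0 ≤ x.getD c.2 0 := by
  have key : (∀ i < nc (net V E C), ∑ j ∈ range (nv (net V E C)),
      ent (net V E C) i j * x.getD j 0 ≤ (net V E C).2.1.getD i 0) ↔
      ∀ r ∈ rows E C, ∑ j ∈ range (V + E.length), rent V r j * x.getD j 0 ≤ 0 := by
    rw [nc_net, nv_net]
    have e1 : ∀ i (hi : i < (rows E C).length), ∑ j ∈ range (V + E.length),
        ent (net V E C) i j * x.getD j 0 =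
        ∑ j ∈ range (V + E.length), rent V ((rows E C)[i]) j * x.getD j 0 := fun i hi =>
      sum_congr rfl fun j hj => by rw [ent_net hi (mem_range.mp hj)]
    have e2 : ∀ i, (net V E C).2.1.getD i 0 = 0 := fun i => by
      simp only [net, List.getD_eq_getElem?_getD, List.getElem?_map]
      cases (rows E C)[i]? <;> rfl
    constructor
    · intro H r hr
      obtain ⟨i, hi, rfl⟩ := List.getElem_of_mem hr
      have := H i hi
      rwa [e1 i hi, e2] at this
    · intro H i hi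
      rw [e1 i hi, e2]
      exact H _ (List.getElem_mem hi)
  rw [Feas, key, nv_net]
  refine and_congr_right fun _ => ?_
  constructor
  · intro H
    refine ⟨fun t ht => ?_, fun c hc => ?_⟩
    · obtain ⟨ha, hb⟩ := h.1 _ (List.getElem_mem ht)
      have h1 := H _ (mem_rows.mpr (Or.inl ⟨t, ht, Or.inl rfl⟩))
      have h2 := H _ (mem_rows.mpr (Or.inl ⟨t, ht, Or.inr rfl⟩))
      rw [sum_rent _ _ _ (by simp only; omega) (by simp only; omega)] at h1 h2
      simp only [Nat.add_lt_add_iff_left, ht, if_true] at h1 h2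
      omega
    · obtain ⟨ha, hb⟩ := h.2 _ hc
      have h1 := H _ (mem_rows.mpr (Or.inr ⟨c, hc, rfl⟩))
      rw [sum_rent _ _ _ (by simp only; omega) (by simp only; omega)] at h1
      simp only [lt_self_iff_false, if_false] at h1
      omega
  · rintro ⟨H1, H2⟩ r hr
    rcases mem_rows.mp hr with ⟨t, ht, rfl | rfl⟩ | ⟨c, hc, rfl⟩
    · obtain ⟨ha, hb⟩ := h.1 _ (List.getElem_mem ht)
      rw [sum_rent _ _ _ (by simp only; omega) (by simp only; omega)]
      simp only [Nat.add_lt_add_iff_left, ht, if_true]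
      have := H1 t ht
      omega
    · obtain ⟨ha, hb⟩ := h.1 _ (List.getElem_mem ht)
      rw [sum_rent _ _ _ (by simp only; omega) (by simp only; omega)]
      simp only [Nat.add_lt_add_iff_left, ht, if_true]
      have := H1 t ht
      omega
    · obtain ⟨ha, hb⟩ := h.2 _ hc
      rw [sum_rent _ _ _ (by simp only; omega) (by simp only; omega)]
      simp only [lt_self_iff_false, if_false]
      have := H2 c hc
      omega

/-- the energy of a potential -/
def energy (E : List (ℕ × ℕ × ℤ)) (π : ℕ → ℤ) : ℤ :=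
  (E.map fun e => e.2.2 * (π e.1 - π e.2.1) ^ 2).sum

theorem list_sum_eq {β : Type} (l : List β) (d : β) (f : β → ℤ) :
    (l.map f).sum = ∑ t ∈ range l.length, f (l.getD t d) := by
  induction l with
  | nil => simp
  | cons a l ih => simp [sum_range_succ', ih, add_comm]

theorem obj_eq (h : Ok V E C) {x : List ℤ} (hx : Feas (net V E C) x) :
    obj (net V E C) x = energy E (fun v => x.getD v 0) := by
  obtain ⟨_, H1, _⟩ := (feas_iff h x).mp hx
  have e2 : ∀ j, (net V E C).2.2.1.getD j 0 = 0 := fun j => by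
    simp only [net, List.getD_eq_getElem?_getD, List.getElem?_map]
    cases (List.range (V + E.length))[j]? <;> rfl
  rw [obj, nv_net, sum_range_add, energy, list_sum_eq E (0, 0, 0)]
  have e3 : ∑ j ∈ range V, ((net V E C).2.2.2.getD j 0 * x.getD j 0 ^ 2 +
      (net V E C).2.2.1.getD j 0 * x.getD j 0) = 0 := by
    refine sum_eq_zero fun j hj => ?_
    have hj' := mem_range.mp hj
    rw [e2]
    simp [net, List.getD_eq_getElem?_getD, List.getElem?_append_left, hj']
  rw [e3, zero_add]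
  refine sum_congr rfl fun t ht => ?_
  have ht' := mem_range.mp ht
  rw [e2, H1 t ht']
  simp [net, List.getD_eq_getElem?_getD, List.getElem?_append_right, ht']

theorem exists_feas (h : Ok V E C) (π : ℕ → ℤ) (hπ : ∀ c ∈ C, π c.1 ≤ π c.2) :
    ∃ x, Feas (net V E C) x ∧ obj (net V E C) x = energy E π := by
  let x : List ℤ := (List.range V).map π ++ E.map (fun e => π e.1 - π e.2.1)
  have hv : ∀ v < V, x.getD v 0 = π v := fun v hv => by
    simp [x, List.getD_eq_getElem?_getD, List.getElem?_append_left, hv]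
  have hf : Feas (net V E C) x := by
    refine (feas_iff h x).mpr ⟨by simp [x], fun t ht => ?_, fun c hc => ?_⟩
    · obtain ⟨ha, hb⟩ := h.1 _ (List.getElem_mem ht)
      rw [hv _ ha, hv _ hb]
      simp [x, List.getD_eq_getElem?_getD, List.getElem?_append_right, ht]
    · obtain ⟨ha, hb⟩ := h.2 _ hc
      rw [hv _ ha, hv _ hb]
      exact hπ c hc
  refine ⟨x, hf, ?_⟩
  rw [obj_eq h hf, energy, energy]
  congr 1
  refine List.map_congr_left fun e he => ?_
  obtain ⟨ha, hb⟩ := h.1 _ he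
  simp only [hv _ ha, hv _ hb]

theorem tu_net (h : Ok V E C) : (Matrix.of fun (i : Fin (nc (net V E C)))
    (j : Fin (nv (net V E C))) => ent (net V E C) i j).IsTotallyUnimodular := by
  classical
  let D : Matrix (ℕ × ℕ × ℕ) ℕ ℤ := Matrix.of fun r j =>
    ((if j = r.2.1 then 1 else 0) - (if j = r.1 then 1 else 0) : ℤ)
  have hD : D.IsTotallyUnimodular := tu_inc (fun r : ℕ × ℕ × ℕ => r.1) (fun r => r.2.1)
  have hB := (Matrix.fromCols_one_isTotallyUnimodular_iff D).mpr hD
  have hi : ∀ i : Fin (nc (net V E C)), (i : ℕ) < (rows E C).length := fun i =>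
    i.2.trans_eq nc_net
  have hj : ∀ j : Fin (nv (net V E C)), (j : ℕ) < V + E.length := fun j =>
    j.2.trans_eq nv_net
  let f : Fin (nc (net V E C)) → ℕ × ℕ × ℕ := fun i => ((rows E C)[(i : ℕ)]'(hi i)).2
  let g : Fin (nv (net V E C)) → ℕ ⊕ (ℕ × ℕ × ℕ) := fun j =>
    if (j : ℕ) < V then Sum.inl j else
      Sum.inr ((E.getD (j - V) (0, 0, 0)).1, (E.getD (j - V) (0, 0, 0)).2.1, j - V)
  have h2 := tu_sign (hB.submatrix f g) (fun i => ((rows E C)[(i : ℕ)]'(hi i)).1) (fun i => by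
    rcases mem_rows.mp (List.getElem_mem (hi i)) with ⟨t, ht, h | h⟩ | ⟨c, hc, h⟩ <;> simp [h])
  convert h2 using 1
  ext i j
  simp only [Matrix.of_apply, Matrix.submatrix_apply, ent_net (hi i) (hj j), rent, f, g]
  congr 1
  have hmem := mem_rows.mp (List.getElem_mem (hi i))
  generalize (rows E C)[(i : ℕ)]'(hi i) = r at hmem
  have hj' := hj j
  generalize (j : ℕ) = j at hj'
  have hab : r.2.1 < V ∧ r.2.2.1 < V ∧ ∀ ht : r.2.2.2 < E.length,
      r.2.1 = E[r.2.2.2].1 ∧ r.2.2.1 = E[r.2.2.2].2.1 := by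
    rcases hmem with ⟨t, ht, rfl | rfl⟩ | ⟨c, hc, rfl⟩
    · exact ⟨(h.1 _ (List.getElem_mem ht)).1, (h.1 _ (List.getElem_mem ht)).2, fun _ => ⟨rfl, rfl⟩⟩
    · exact ⟨(h.1 _ (List.getElem_mem ht)).1, (h.1 _ (List.getElem_mem ht)).2, fun _ => ⟨rfl, rfl⟩⟩
    · exact ⟨(h.2 _ hc).1, (h.2 _ hc).2, fun ht => absurd ht (lt_irrefl _)⟩
  obtain ⟨σ, a, b, t⟩ := r
  obtain ⟨ha, hb, hE⟩ := hab
  simp only at ha hb hE ⊢
  by_cases hjV : j < V
  · have : j ≠ V + t := by omega
    simp [hjV, this, D]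
  · have h1 : j ≠ a := by omega
    have h2 : j ≠ b := by omega
    simp only [hjV, if_false, Matrix.fromCols_apply_inr, h1, h2, sub_self, add_zero,
      Matrix.one_apply, Prod.mk.injEq]
    by_cases h3 : j = V + t
    · subst h3
      have ht : t < E.length := by omega
      obtain ⟨e1, e2⟩ := hE ht
      simp [List.getD_eq_getElem?_getD, ht, ← e1, ← e2]
    · have : ¬ t = j - V := by omega
      simp [h3, this]

theorem valid_net (h : Ok V E C) (hV : 1 ≤ V) (hE : E ≠ []) {p : ℕ}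
    (hp : E.countP (fun e => decide (e.2.2 < 0)) ≤ p) : Valid p (net V E C) := by
  refine ⟨by rw [nv_net]; omega, ?_, ?_, ?_, ?_, tu_net h, ?_⟩
  · rw [nc_net]
    have hl : 0 < E.length := List.length_pos_iff.mpr hE
    exact List.length_pos_of_mem (mem_rows.mpr (Or.inl ⟨0, hl, Or.inl rfl⟩))
  · intro r hr
    rw [nv_net]
    simp only [net, List.mem_map] at hr
    obtain ⟨_, _, rfl⟩ := hr
    simp
  · simp [nc, net]
  · simp [nv, net]
  · simp only [net, List.countP_append, List.countP_map]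
    have : List.countP ((fun c : ℤ => decide (c < 0)) ∘ fun _ : ℕ => (0 : ℤ)) (List.range V) = 0 := by
      simp
    rw [this, zero_add]
    exact hp

end Pool.Agent.H189Z.QIP
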