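import Pool.Agent.H189Z.QIP.Form
import Pool.Agent.H189Z.QIP.Core
import Pool.Agent.H671R2.SubsetSum

namespace Pool.Agent.H189Z.QIP

open Finset Pool.Agent.NPC.R671.SS

abbrev SI : Type := List ℕ × ℕ

def gg (x : SI) : ℤ := 16 * (x.1.sum : ℤ)

def aa (x : SI) (k : ℕ) : ℤ := (x.1.getD k 0 : ℕ)

def al (x : SI) (t v : ℕ) : ℤ :=
  if t < x.1.length then
    gg x * ((if v = x.1.length + t then gg x ^ x.1.length else 0) -
      (if v = t + 1 ∧ t + 1 < x.1.length then 3 * gg x ^ x.1.length else 0) -
      (if v = x.1.length + x.1.length then gg x ^ (x.1.length - 1 - t) else 0))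
  else if v < x.1.length then aa x v * gg x ^ (min (v + 1) x.1.length)
  else if v = x.1.length + x.1.length then (x.1.sum : ℤ) - 2 * (x.2 : ℤ) else 0

def dd (x : SI) (v : ℕ) : ℤ :=
  if v < x.1.length then -(3 * (gg x * gg x ^ x.1.length) ^ 2)
  else if v < x.1.length + x.1.length then 3 * (gg x * gg x ^ x.1.length) ^ 2 else -1

def NN (x : SI) : ℕ := x.1.length + x.1.length + 1

def rh (x : SI) (v : ℕ) : ℤ := rho (NN x) (x.1.length + 1) (al x) (dd x) v

def edges (x : SI) : List (ℕ × ℕ × ℤ) :=
  [(0, NN x + 0, rh x 0),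
    (x.1.length + x.1.length, NN x + (x.1.length + x.1.length), rh x (x.1.length + x.1.length))] ++
  ((List.range (x.1.length + x.1.length - 1)).map (fun v => (v + 1, NN x + (v + 1), rh x (v + 1))) ++
    pairEdges (NN x) (x.1.length + 1) (al x))

def cons (x : SI) : List (ℕ × ℕ) :=
  (List.range x.1.length).flatMap fun k =>
    [(k, x.1.length + k), (NN x + k, x.1.length + k), (NN x + (x.1.length + k), k),
      (NN x + (x.1.length + k), NN x + k)]

def red (x : SI) : Inst := net (NN x + NN x) (edges x) (cons x)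

theorem sum_aa (x : SI) : ∑ k ∈ range x.1.length, aa x k = (x.1.sum : ℤ) := by
  have := list_sum_eq x.1 0 (fun a : ℕ => (a : ℤ))
  rw [Nat.cast_list_sum]
  exact this.symm

theorem aa_nonneg (x : SI) (k : ℕ) : 0 ≤ aa x k := by simp [aa]

theorem ok_red (x : SI) : Ok (NN x + NN x) (edges x) (cons x) := by
  constructor
  · intro e he
    simp only [edges, List.mem_append, List.mem_cons, List.not_mem_nil, or_false, List.mem_map,
      List.mem_range] at he
    rcases he with (rfl | rfl) | ⟨v, hv, rfl⟩ | he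
    · simp [NN]
    · simp only [NN]; omega
    · simp only [NN]; omega
    · exact ⟨(mem_pairEdges he).1, (mem_pairEdges he).2.1⟩
  · intro c hc
    simp only [cons, List.mem_flatMap, List.mem_range, List.mem_cons, List.not_mem_nil,
      or_false] at hc
    obtain ⟨k, hk, rfl | rfl | rfl | rfl⟩ := hc <;> simp only [NN] <;> omega

theorem sum_al (x : SI) (U : ℕ → ℤ) {t : ℕ} (ht : t < x.1.length) :
    ∑ i ∈ range (NN x), al x t i * U i =
      gg x * (gg x ^ x.1.length * U (x.1.length + t) -
        3 * gg x ^ x.1.length * (if t + 1 < x.1.length then U (t + 1) else 0) -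
        gg x ^ (x.1.length - 1 - t) * U (x.1.length + x.1.length)) := by
  have h1 : x.1.length + t < NN x := by simp only [NN]; omega
  have h2 : t + 1 < NN x := by simp only [NN]; omega
  have h3 : x.1.length + x.1.length < NN x := by simp only [NN]; omega
  simp only [al, ht, if_true, mul_assoc, ← mul_sum, sub_mul, ite_mul, zero_mul, sum_sub_distrib,
    sum_ite_eq', mem_range, h1, h3]
  by_cases h : t + 1 < x.1.length
  · simp [h, h2]
  · simp [h]

theorem sum_al_last (x : SI) (f : ℕ → ℤ → ℤ) (hf : ∀ i, f i 0 = 0) :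
    ∑ i ∈ range (NN x), f i (al x x.1.length i) =
      ∑ v ∈ range x.1.length, f v (aa x v * gg x ^ (v + 1)) +
        f (x.1.length + x.1.length) ((x.1.sum : ℤ) - 2 * (x.2 : ℤ)) := by
  rw [NN, sum_range_succ, sum_range_add]
  have e1 : ∑ i ∈ range x.1.length, f (x.1.length + i) (al x x.1.length (x.1.length + i)) = 0 := by
    refine sum_eq_zero fun i hi => ?_
    have hi' := mem_range.mp hi
    have : i ≠ x.1.length := by omega
    simp [al, this, hf]
  rw [e1, add_zero]
  congr 1
  · refine sum_congr rfl fun i hi => ?_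
    have hi' := mem_range.mp hi
    have : min (i + 1) x.1.length = i + 1 := by omega
    simp [al, hi', this]
  · simp [al]

theorem form_eq (x : SI) (U : ℕ → ℤ) :
    ∑ t ∈ range (x.1.length + 1), (∑ i ∈ range (NN x), al x t i * U i) ^ 2 +
      ∑ v ∈ range (NN x), dd x v * U v ^ 2 =
    Qf x.1.length (aa x) (gg x) ((x.1.sum : ℤ) - 2 * (x.2 : ℤ)) U := by
  rw [sum_range_succ, sum_al_last x (fun i z => z * U i) (by simp),
    sum_congr rfl fun t ht => by rw [sum_al x U (mem_range.mp ht)]]
  have e : ∑ v ∈ range (NN x), dd x v * U v ^ 2 = ∑ k ∈ range x.1.length,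
      3 * (gg x * gg x ^ x.1.length) ^ 2 * (U (x.1.length + k) ^ 2 - U k ^ 2) -
      U (x.1.length + x.1.length) ^ 2 := by
    rw [NN, sum_range_succ, sum_range_add, ← sum_add_distrib]
    have : dd x (x.1.length + x.1.length) = -1 := by simp [dd]
    rw [this, sub_eq_add_neg, neg_one_mul]
    congr 1
    refine sum_congr rfl fun i hi => ?_
    have hi' := mem_range.mp hi
    have h1 : ¬ x.1.length + i < x.1.length := by omega
    simp only [dd, hi', if_true, h1, if_false, Nat.add_lt_add_iff_left]
    ring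
  rw [e, Qf]
  ring

theorem energy_edges (x : SI) (hn : 1 ≤ x.1.length) (π : ℕ → ℤ) :
    energy (edges x) π = energy (pairEdges (NN x) (x.1.length + 1) (al x)) π +
      ∑ v ∈ range (NN x), rh x v * (π v - π (NN x + v)) ^ 2 := by
  rw [edges, energy_append, energy_append]
  have e1 : NN x = (x.1.length + x.1.length - 1) + 1 + 1 := by simp only [NN]; omega
  have e2 : x.1.length + x.1.length - 1 + 1 = x.1.length + x.1.length := by omega
  have e3 : ∑ v ∈ range (NN x), rh x v * (π v - π (NN x + v)) ^ 2 =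
      ∑ v ∈ range ((x.1.length + x.1.length - 1) + 1 + 1), rh x v * (π v - π (NN x + v)) ^ 2 := by
    rw [← e1]
  rw [e3, sum_range_succ, sum_range_succ', e2]
  simp only [energy, List.map_cons, List.map_nil, List.sum_cons, List.sum_nil, List.map_map]
  rw [sum_map_range]
  simp only [Function.comp]
  ring

theorem energy_red (x : SI) (hn : 1 ≤ x.1.length) (π : ℕ → ℤ) :
    2 * energy (edges x) π =
      2 * Qf x.1.length (aa x) (gg x) ((x.1.sum : ℤ) - 2 * (x.2 : ℤ))
        (fun v => π v - π (NN x + v)) +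
      ∑ t ∈ range (x.1.length + 1), ∑ i ∈ range (NN x), ∑ j ∈ range (NN x),
        om (al x) t i j * ((π i + π (NN x + i)) - (π j + π (NN x + j))) ^ 2 := by
  rw [energy_edges x hn, ← form_eq]
  exact pair_energy _ _ _ _ _

theorem norm_al (x : SI) (hG : 0 < gg x) {t : ℕ} (ht : t < x.1.length) :
    ∑ j ∈ range (NN x), |al x t j| ≤
      gg x * (4 * gg x ^ x.1.length + gg x ^ (x.1.length - 1 - t)) := by
  have hD : 0 < gg x ^ x.1.length := pow_pos hG _
  have hg : 0 < gg x ^ (x.1.length - 1 - t) := pow_pos hG _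
  have h1 : ∀ j, |al x t j| ≤ gg x * ((if j = x.1.length + t then gg x ^ x.1.length else 0) +
      (if j = t + 1 then 3 * gg x ^ x.1.length else 0) +
      (if j = x.1.length + x.1.length then gg x ^ (x.1.length - 1 - t) else 0)) := by
    intro j
    simp only [al, ht, if_true]
    rw [abs_mul, abs_of_pos hG]
    refine mul_le_mul_of_nonneg_left ?_ hG.le
    rw [abs_le]
    constructor <;> split_ifs <;> first | linarith | (exfalso; omega)
  refine (sum_le_sum fun j _ => h1 j).trans ?_
  rw [← mul_sum]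
  refine mul_le_mul_of_nonneg_left ?_ hG.le
  simp only [sum_add_distrib, sum_ite_eq']
  split_ifs <;> linarith

theorem rh_nonneg (x : SI) (hx : Nice x) {v : ℕ} (hv1 : 1 ≤ v)
    (hv2 : v < x.1.length + x.1.length) : 0 ≤ rh x v := by
  have hA : (x.2 : ℤ) < x.1.sum := by exact_mod_cast hx.2
  set A : ℤ := ((x.1.sum : ℕ) : ℤ) with hAdef
  have hB : (0 : ℤ) ≤ x.2 := by positivity
  have hGA : gg x = 16 * A := rfl
  have hG : 0 < gg x := by omega
  have hG16 : 16 ≤ gg x := by omega
  set n := x.1.length with hn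
  have hD : 0 < gg x ^ n := pow_pos hG _
  have hmono : ∀ k ≤ n, gg x ^ k ≤ gg x ^ n := fun k hk => pow_le_pow_right₀ (by omega) hk
  rw [rh, rho_eq, sum_range_succ]
  by_cases h : v < n
  · obtain ⟨k, rfl⟩ : ∃ k, v = k + 1 := ⟨v - 1, by omega⟩
    rw [sum_eq_single k (fun t ht htk => by
      have ht' : t < n := mem_range.mp ht
      have h1 : ¬ k + 1 = n + t := by omega
      have h2 : ¬ k = t := fun h => htk h.symm
      have h3 : ¬ k + 1 = n + n := by omega
      have h4 : al x t (k + 1) = 0 := by simp [al, ← hn, ht', h1, h2, h3]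
      simp [h4]) (fun hk => absurd (mem_range.mpr (by omega)) hk)]
    have hk : k < n := by omega
    have e1 : al x k (k + 1) = -(3 * (gg x * gg x ^ n)) := by
      have h1 : ¬ k + 1 = n + k := by omega
      have h3 : ¬ k + 1 = n + n := by omega
      simp only [al, ← hn, hk, if_true, h1, if_false, h, and_self, h3]
      ring
    have e2 : al x n (k + 1) = aa x (k + 1) * gg x ^ (k + 1 + 1) := by
      have : min (k + 1 + 1) n = k + 1 + 1 := by omega
      simp [al, ← hn, h, this]
    have e3 : dd x (k + 1) = -(3 * (gg x * gg x ^ n) ^ 2) := by simp [dd, ← hn, h]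
    have n1 := norm_al x hG hk
    rw [← hn] at n1
    have n2 : ∑ j ∈ range (NN x), |al x n j| ≤ 2 * (A * gg x ^ n) := by
      have := sum_al_last x (fun _ z => |z|) (by simp)
      simp only [← hn] at this
      rw [this]
      have h1 : ∑ v ∈ range n, |aa x v * gg x ^ (v + 1)| ≤ A * gg x ^ n := by
        rw [hAdef, ← sum_aa, sum_mul]
        refine sum_le_sum fun v hv => ?_
        rw [abs_of_nonneg (mul_nonneg (aa_nonneg _ _) (by positivity))]
        exact mul_le_mul_of_nonneg_left (hmono _ (mem_range.mp hv)) (aa_nonneg _ _)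
      have h2 : |A - 2 * (x.2 : ℤ)| ≤ A := by rw [abs_le]; constructor <;> linarith
      have h3 : A ≤ A * gg x ^ n := le_mul_of_one_le_right (by omega) hD
      linarith
    have n3 : |al x n (k + 1)| ≤ A * gg x ^ n := by
      rw [e2, abs_of_nonneg (mul_nonneg (aa_nonneg _ _) (by positivity))]
      have h1 : aa x (k + 1) ≤ A := by
        rw [hAdef, ← sum_aa]
        exact single_le_sum (fun i _ => aa_nonneg x i) (mem_range.mpr h)
      exact mul_le_mul h1 (hmono _ (by omega)) (by positivity) (by omega)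
    have n4 : |al x n (k + 1)| * ∑ j ∈ range (NN x), |al x n j| ≤
        (A * gg x ^ n) * (2 * (A * gg x ^ n)) :=
      mul_le_mul n3 n2 (sum_nonneg fun _ _ => abs_nonneg _) (by positivity)
    have n5 : gg x * gg x ^ (n - 1 - k) ≤ gg x ^ n := by
      rw [← pow_succ']; exact hmono _ (by omega)
    rw [e1, e3, abs_neg, abs_of_pos (by positivity)]
    have n6 := mul_le_mul_of_nonneg_left n1 (show 0 ≤ 3 * (gg x * gg x ^ n) by positivity)
    have n7 := mul_le_mul_of_nonneg_left n5 (show 0 ≤ 3 * (gg x * gg x ^ n) by positivity)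
    have n8 : 16 * (gg x * gg x ^ n * gg x ^ n) ≤ gg x * (gg x * gg x ^ n * gg x ^ n) :=
      mul_le_mul_of_nonneg_right hG16 (by positivity)
    have n9 : (gg x * gg x ^ n) ^ 2 = 256 * (A * gg x ^ n) ^ 2 := by
      have : gg x * gg x ^ n = 16 * (A * gg x ^ n) := by rw [← mul_assoc 16, ← hGA]
      rw [this]; ring
    nlinarith [sq_nonneg (al x n (k + 1)), sq_nonneg (A * gg x ^ n)]
  · obtain ⟨k, rfl⟩ : ∃ k, v = n + k := ⟨v - n, by omega⟩
    have hk : k < n := by omega
    rw [sum_eq_single k (fun t ht htk => by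
      have ht' : t < n := mem_range.mp ht
      have h1 : ¬ (n + k = t + 1 ∧ t + 1 < n) := by omega
      have h2 : ¬ k = t := fun h => htk h.symm
      have h3 : ¬ k = n := by omega
      have h4 : al x t (n + k) = 0 := by simp [al, ← hn, ht', h1, h2, h3]
      simp [h4]) (fun hk' => absurd (mem_range.mpr hk) hk')]
    have e1 : al x k (n + k) = gg x * gg x ^ n := by
      have h1 : ¬ (n + k = k + 1 ∧ k + 1 < n) := by omega
      have h3 : ¬ k = n := by omega
      simp [al, ← hn, hk, h1, h3]
    have e2 : al x n (n + k) = 0 := by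
      have h3 : ¬ k = n := by omega
      simp [al, ← hn, h3]
    have e3 : dd x (n + k) = 3 * (gg x * gg x ^ n) ^ 2 := by simp [dd, ← hn, hk]
    have n1 := norm_al x hG hk
    rw [← hn] at n1
    have n5 : gg x ^ (n - 1 - k) ≤ gg x ^ n := hmono _ (by omega)
    rw [e1, e2, e3, abs_of_pos (by positivity)]
    have n6 := mul_le_mul_of_nonneg_left n1 (show 0 ≤ gg x * gg x ^ n by positivity)
    have n7 := mul_le_mul_of_nonneg_left n5 (show 0 ≤ gg x * (gg x * gg x ^ n) by positivity)
    simp only [abs_zero, zero_mul]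
    nlinarith

theorem len_pos {x : SI} (hx : Nice x) : 1 ≤ x.1.length := by
  rcases x with ⟨_ | ⟨a, l⟩, B⟩
  · have := hx.2; simp at this
  · simp

theorem valid_red (x : SI) (hx : Nice x) {p : ℕ} (hp : 2 ≤ p) : Valid p (red x) := by
  refine valid_net (ok_red x) (by simp only [NN]; omega) (by simp [edges]) (le_trans ?_ hp)
  rw [edges, List.countP_append, List.countP_append]
  have h1 : List.countP (fun e : ℕ × ℕ × ℤ => decide (e.2.2 < 0))
      ((List.range (x.1.length + x.1.length - 1)).map
        (fun v => (v + 1, NN x + (v + 1), rh x (v + 1)))) = 0 := by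
    rw [List.countP_eq_zero]
    intro e he
    obtain ⟨v, hv, rfl⟩ := List.mem_map.mp he
    have := rh_nonneg x hx (v := v + 1) (by omega) (by have := List.mem_range.mp hv; omega)
    simpa using this
  have h2 : List.countP (fun e : ℕ × ℕ × ℤ => decide (e.2.2 < 0))
      (pairEdges (NN x) (x.1.length + 1) (al x)) = 0 := by
    rw [List.countP_eq_zero]
    intro e he
    simpa using (mem_pairEdges he).2.2
  rw [h1, h2]
  exact List.countP_le_length

theorem subsetSum_iff_finset (x : SI) :
    SubsetSum x ↔ ∃ S ⊆ range x.1.length, ∑ k ∈ S, aa x k = x.2 := by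
  obtain ⟨l, B⟩ := x
  simp only [SubsetSum, aa]
  induction l using List.reverseRecOn generalizing B with
  | nil =>
    constructor
    · rintro ⟨s, hs, rfl⟩
      rw [List.sublist_nil.mp hs]
      exact ⟨∅, by simp, by simp⟩
    · rintro ⟨S, hS, h⟩
      have : S = ∅ := by simpa using hS
      subst this
      refine ⟨[], by simp, ?_⟩
      simp only [sum_empty] at h
      simp only [List.sum_nil]
      exact_mod_cast h
  | append_singleton l a ih =>
    have hget : ∀ k < l.length, (l ++ [a]).getD k 0 = l.getD k 0 := fun k hk => by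
      simp [List.getD_eq_getElem?_getD, List.getElem?_append_left, hk]
    have hlast : (l ++ [a]).getD l.length 0 = a := by simp [List.getD_eq_getElem?_getD]
    constructor
    · rintro ⟨s, hs, rfl⟩
      obtain ⟨s1, s2, rfl, h1, h2⟩ := List.sublist_append_iff.mp hs
      obtain ⟨S, hS, h⟩ := (ih s1.sum).mp ⟨s1, h1, rfl⟩
      have hS' : ∑ k ∈ S, (((l ++ [a]).getD k 0 : ℕ) : ℤ) = s1.sum := by
        rw [← h]; exact sum_congr rfl fun k hk => by rw [hget k (mem_range.mp (hS hk))]
      rcases List.sublist_singleton.mp h2 with rfl | rfl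
      · exact ⟨S, hS.trans (by simp), by simpa using hS'⟩
      · have hn : l.length ∉ S := fun h => by simpa using hS h
        refine ⟨insert l.length S, ?_, ?_⟩
        · intro k hk
          rcases mem_insert.mp hk with rfl | hk
          · simp
          · have := mem_range.mp (hS hk); simp; omega
        · rw [sum_insert hn, hS', hlast]; simp [add_comm]
    · rintro ⟨S, hS, h⟩
      have hS1 : S.erase l.length ⊆ range l.length := fun k hk => by
        have h1 := mem_range.mp (hS (mem_of_mem_erase hk))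
        have h2 := ne_of_mem_erase hk
        simp at h1
        exact mem_range.mpr (by omega)
      obtain ⟨s, hs, h2⟩ := (ih (∑ k ∈ S.erase l.length, l.getD k 0)).mpr
        ⟨S.erase l.length, hS1, by push_cast; rfl⟩
      have h3 : ∑ k ∈ S.erase l.length, (((l ++ [a]).getD k 0 : ℕ) : ℤ) = s.sum := by
        rw [h2]; push_cast
        exact sum_congr rfl fun k hk => by rw [hget k (mem_range.mp (hS1 hk))]
      by_cases hm : l.length ∈ S
      · refine ⟨s ++ [a], hs.append (List.Sublist.refl _), ?_⟩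
        rw [← add_sum_erase _ _ hm, h3, hlast] at h
        simp only [List.sum_append, List.sum_cons, List.sum_nil]
        omega
      · refine ⟨s, hs.trans (List.sublist_append_left _ _), ?_⟩
        rw [erase_eq_of_notMem hm] at h3
        rw [h3] at h
        exact_mod_cast h

theorem red_yes (x : SI) (hx : Nice x) (h : SubsetSum x) : Unbounded (red x) := by
  obtain ⟨S, hS, hB⟩ := (subsetSum_iff_finset x).mp h
  have hA : 1 ≤ ∑ k ∈ range x.1.length, aa x k := by
    rw [sum_aa]; have := hx.2; omega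
  obtain ⟨u, hu, hQ⟩ := Qf_neg x.1.length (aa x) x.2 (aa_nonneg x) hA S hS hB
  rw [sum_aa] at hQ
  intro b
  let m : ℤ := |b| + 1
  have hm : 1 ≤ m := by have := abs_nonneg b; omega
  let π : ℕ → ℤ := fun v => if v < NN x then m * u v else -(m * u (v - NN x))
  have p1 : ∀ v < NN x, π v = m * u v := fun v hv => by simp [π, hv]
  have p2 : ∀ v, π (NN x + v) = -(m * u v) := fun v => by simp [π]
  obtain ⟨y, hy, hobj⟩ := exists_feas (ok_red x) π (fun c hc => by
    simp only [cons, List.mem_flatMap, List.mem_range, List.mem_cons, List.not_mem_nil,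
      or_false] at hc
    obtain ⟨k, hk, hc⟩ := hc
    have h1 := abs_le.mp (hu k hk)
    have k1 : k < NN x := by simp only [NN]; omega
    have k2 : x.1.length + k < NN x := by simp only [NN]; omega
    rcases hc with rfl | rfl | rfl | rfl <;> simp only [p1 _ k1, p1 _ k2, p2] <;> nlinarith)
  refine ⟨y, hy, ?_⟩
  have e := energy_red x (len_pos hx) π
  have z : ∑ t ∈ range (x.1.length + 1), ∑ i ∈ range (NN x), ∑ j ∈ range (NN x),
      om (al x) t i j * ((π i + π (NN x + i)) - (π j + π (NN x + j))) ^ 2 = 0 :=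
    sum_eq_zero fun t _ => sum_eq_zero fun i hi => sum_eq_zero fun j hj => by
      rw [p1 i (mem_range.mp hi), p1 j (mem_range.mp hj), p2, p2]; ring
  rw [z, add_zero, ← form_eq] at e
  have e2 : ∑ t ∈ range (x.1.length + 1), (∑ i ∈ range (NN x), al x t i * (π i - π (NN x + i))) ^ 2 +
      ∑ v ∈ range (NN x), dd x v * (π v - π (NN x + v)) ^ 2 =
      ∑ t ∈ range (x.1.length + 1), (∑ i ∈ range (NN x), al x t i * ((2 * m) * u i)) ^ 2 +
      ∑ v ∈ range (NN x), dd x v * ((2 * m) * u v) ^ 2 := by
    congr 1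
    · refine sum_congr rfl fun t _ => ?_
      congr 1
      exact sum_congr rfl fun i hi => by rw [p1 i (mem_range.mp hi), p2]; ring
    · exact sum_congr rfl fun i hi => by rw [p1 i (mem_range.mp hi), p2]; ring
  rw [e2, form_eq x (fun i => (2 * m) * u i), Qf_smul] at e
  change obj (net _ _ _) y < b
  rw [hobj]
  have h3 : Qf x.1.length (aa x) (gg x) ((x.1.sum : ℤ) - 2 * (x.2 : ℤ)) u ≤ -1 := by
    have : Qf x.1.length (aa x) (gg x) ((x.1.sum : ℤ) - 2 * (x.2 : ℤ)) u < 0 := hQ
    omega
  have h4 := mul_le_mul_of_nonneg_left h3 (sq_nonneg (2 * m))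
  have h5 := neg_abs_le b
  have h6 : m = |b| + 1 := rfl
  nlinarith

theorem red_no (x : SI) (hx : Nice x) (h : ¬ SubsetSum x) : ∃ y, Optimal (red x) y := by
  have hA : 1 ≤ ∑ k ∈ range x.1.length, aa x k := by
    rw [sum_aa]; have := hx.2; omega
  obtain ⟨y, hy, hobj⟩ := exists_feas (ok_red x) (fun _ => 0) (fun _ _ => le_rfl)
  refine ⟨y, hy, fun z hz => ?_⟩
  change obj (net _ _ _) y ≤ obj (net _ _ _) z
  rw [hobj, obj_eq (ok_red x) hz]
  have e0 : energy (edges x) (fun _ => 0) = 0 := by simp [energy]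
  rw [e0]
  have e := energy_red x (len_pos hx) (fun v => z.getD v 0)
  have hc := ((feas_iff (ok_red x) z).mp hz).2.2
  have hQ := Qf_nonneg x.1.length (aa x) x.2 (aa_nonneg x) hA
    (fun S hS hB => h ((subsetSum_iff_finset x).mpr ⟨S, hS, hB⟩))
    (fun v => z.getD v 0 - z.getD (NN x + v) 0) (fun k hk => by
      have m : ∀ c ∈ [(k, x.1.length + k), (NN x + k, x.1.length + k),
          (NN x + (x.1.length + k), k), (NN x + (x.1.length + k), NN x + k)],
          z.getD c.1 0 ≤ z.getD c.2 0 := fun c hcm =>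
        hc c (List.mem_flatMap.mpr ⟨k, List.mem_range.mpr hk, hcm⟩)
      have m1 := m (k, x.1.length + k) (by simp)
      have m2 := m (NN x + k, x.1.length + k) (by simp)
      have m3 := m (NN x + (x.1.length + k), k) (by simp)
      have m4 := m (NN x + (x.1.length + k), NN x + k) (by simp)
      simp only at m1 m2 m3 m4
      rw [abs_le]
      constructor <;> linarith)
  rw [sum_aa] at hQ
  have hz0 : 0 ≤ ∑ t ∈ range (x.1.length + 1), ∑ i ∈ range (NN x), ∑ j ∈ range (NN x),
      om (al x) t i j * ((z.getD i 0 + z.getD (NN x + i) 0) -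
        (z.getD j 0 + z.getD (NN x + j) 0)) ^ 2 :=
    sum_nonneg fun t _ => sum_nonneg fun i _ => sum_nonneg fun j _ =>
      mul_nonneg (om_nonneg _ _ _ _) (sq_nonneg _)
  have hQ' : 0 ≤ Qf x.1.length (aa x) (gg x) ((x.1.sum : ℤ) - 2 * (x.2 : ℤ))
      (fun v => z.getD v 0 - z.getD (NN x + v) 0) := hQ
  linarith

end Pool.Agent.H189Z.QIP
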